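import Pool.Agent.helper88.T8.Spec

/-!
# Row CV8 of project T8 (MP_16912e_nt): covering of the positions of one pair by boxes
-/

set_option autoImplicit false

namespace Pool.Agent.T8

open Finset NumberField Pool.Agent.helper3.FT Pool.Agent.helper47.RA Pool.Agent.T5 Pool.Agent.T6 Pool.Agent.T7
open scoped nonZeroDivisors

theorem CV8_lo {a s Z : ℝ} (ha : 0 < a) (hs : 0 < s) (hZ : a ^ 2 * s ^ 2 ≤ Z) : a * s ≤ √Z := by
  apply Real.le_sqrt_of_sq_le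
  nlinarith

theorem CV8_sqrt {a s μ Z z : ℝ} (ha : 0 < a) (hs : 0 < s) (hZ : a ^ 2 * s ^ 2 ≤ Z)
    (h1 : Z ≤ z) (h2 : z - Z ≤ μ * s ^ 2) : 0 ≤ √z - √Z ∧ √z - √Z ≤ μ * s / a := by
  have has : 0 < a * s := mul_pos ha hs
  have hZ0 : 0 ≤ Z := le_trans (by positivity) hZ
  have h3 := CV8_lo ha hs hZ
  have h4 : √Z ≤ √z := Real.sqrt_le_sqrt h1
  refine ⟨by linarith, ?_⟩
  have h5 : (√z - √Z) * (√z + √Z) = z - Z := by
    have e1 := Real.mul_self_sqrt hZ0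
    have e2 := Real.mul_self_sqrt (hZ0.trans h1)
    linear_combination e2 - e1
  have h6 : (√z - √Z) * (a * s) ≤ μ * s ^ 2 := by
    refine le_trans ?_ (h5.le.trans h2)
    exact mul_le_mul_of_nonneg_left (by linarith [Real.sqrt_nonneg z]) (by linarith)
  rw [le_div_iff₀ ha]
  have h7 : ((√z - √Z) * a) * s ≤ (μ * s) * s := by linarith [h6]
  exact le_of_mul_le_mul_right h7 hs

theorem CV8_quot {a s μ Z z P p : ℝ} (ha : 0 < a) (ha1 : a ≤ 1) (hs : 0 < s) (hμ : 0 < μ)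
    (hZ0 : 0 ≤ Z) (hZ : Z ≤ s ^ 2) (h1 : Z ≤ z) (h2 : z - Z ≤ μ * s ^ 2) (hP : a * s ≤ P) (hPp : P ≤ p)
    (hp : p - P ≤ μ * s / a) : |z / p - Z / P| ≤ μ * s / a ^ 3 := by
  have has : 0 < a * s := mul_pos ha hs
  have hP0 : 0 < P := has.trans_le hP
  have hp0 : 0 < p := hP0.trans_le hPp
  have e1 : z / p - Z / P = (z - Z) / p - Z * (p - P) / (p * P) := by
    field_simp
    ring
  have h3 : 0 ≤ (z - Z) / p := div_nonneg (by linarith) hp0.le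
  have h4 : 0 ≤ Z * (p - P) / (p * P) := div_nonneg (mul_nonneg hZ0 (by linarith)) (by positivity)
  have h5 : (z - Z) / p ≤ μ * s / a ^ 3 := by
    have h6 : (z - Z) / p ≤ μ * s ^ 2 / (a * s) :=
      div_le_div₀ (by positivity) h2 has (hP.trans hPp)
    have h7 : μ * s ^ 2 / (a * s) = μ * s / a := by
      field_simp
    rw [h7] at h6
    refine h6.trans ?_
    have h8 : a ^ 3 ≤ a := by
      have : a ^ 3 ≤ a ^ 1 := pow_le_pow_of_le_one ha.le ha1 (by norm_num)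
      simpa using this
    exact div_le_div_of_nonneg_left (by positivity) (by positivity) h8
  have h6 : Z * (p - P) / (p * P) ≤ μ * s / a ^ 3 := by
    have h7 : Z * (p - P) ≤ s ^ 2 * (μ * s / a) :=
      mul_le_mul hZ hp (by linarith) (by positivity)
    have h8 : (a * s) * (a * s) ≤ p * P := mul_le_mul (hP.trans hPp) hP has.le hp0.le
    have h9 : Z * (p - P) / (p * P) ≤ s ^ 2 * (μ * s / a) / ((a * s) * (a * s)) :=
      div_le_div₀ (by positivity) h7 (by positivity) h8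
    refine h9.trans (le_of_eq ?_)
    field_simp
  rw [e1, abs_le]
  constructor <;> linarith

theorem CV8_err {a s μ N Δ Z L V n k : ℝ} (ha : 0 < a) (hs : 0 < s) (hn : 0 < n) (hk : 0 < k)
    (hΔ : 0 ≤ Δ) (hΔN : Δ ≤ N) (hN : n * k * N ≤ 36 * μ * s ^ 6) (hμ : 0 < μ)
    (hZ : a ^ 2 * s ^ 2 ≤ Z) (hL : a ^ 2 * s ^ 2 ≤ L) (hV : a ^ 2 * s ^ 2 ≤ V) :
    n * k * Δ / (4 * V) * (k / (√Z * L) + n / (Z * √L)) ≤ 9 * μ * s * (n + k) / a ^ 5 := by
  have has : 0 < a * s := mul_pos ha hs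
  have has2 : 0 < a ^ 2 * s ^ 2 := by positivity
  have hZ0 : 0 < Z := has2.trans_le hZ
  have hL0 : 0 < L := has2.trans_le hL
  have hV0 : 0 < V := has2.trans_le hV
  have hZs := CV8_lo ha hs hZ
  have hLs := CV8_lo ha hs hL
  have h1 : n * k * Δ / (4 * V) ≤ 9 * μ * s ^ 4 / a ^ 2 := by
    have h2 : n * k * Δ ≤ 36 * μ * s ^ 6 :=
      (mul_le_mul_of_nonneg_left hΔN (by positivity)).trans hN
    have h3 : n * k * Δ / (4 * V) ≤ 36 * μ * s ^ 6 / (4 * (a ^ 2 * s ^ 2)) :=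
      div_le_div₀ (by positivity) h2 (by positivity) (by linarith)
    refine h3.trans (le_of_eq ?_)
    field_simp
    ring
  have h2 : k / (√Z * L) ≤ k / (a ^ 3 * s ^ 3) := by
    refine div_le_div_of_nonneg_left hk.le (by positivity) ?_
    have := mul_le_mul hZs hL has2.le (Real.sqrt_nonneg Z)
    refine le_trans (le_of_eq ?_) this
    ring
  have h3 : n / (Z * √L) ≤ n / (a ^ 3 * s ^ 3) := by
    refine div_le_div_of_nonneg_left hn.le (by positivity) ?_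
    have := mul_le_mul hZ hLs has.le hZ0.le
    refine le_trans (le_of_eq ?_) this
    ring
  have h4 : 0 ≤ k / (√Z * L) + n / (Z * √L) := by positivity
  refine (mul_le_mul h1 (add_le_add h2 h3) h4 (by positivity)).trans (le_of_eq ?_)
  field_simp
  ring

/-- the centres of the boxes -/
noncomputable def CV8_c (Y μ : ℝ) (n k : ℕ) (q : (Bool × Bool) × (ℕ × ℕ)) : ℝ × ℝ × ℝ :=
  ((if q.1.1 then 1 else -1) * (√((q.2.1 + 1) * μ * Y) * n) -
      (if q.1.2 then 1 else -1) * ((q.2.1 + 1) * μ * Y / √((q.2.2 + 1) * μ * Y) * k),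
    (if q.1.1 then 1 else -1) * ((q.2.2 + 1) * μ * Y / √((q.2.1 + 1) * μ * Y) * n) +
      (if q.1.2 then 1 else -1) * (√((q.2.2 + 1) * μ * Y) * k),
    q.2.1 * μ * Y)

theorem CV8_idx {Y μ Z : ℝ} (hY : 0 < Y) (hμ : 0 < μ) (hZ0 : 0 < Z) (hZ : Z ≤ Y) :
    ∃ i : ℕ, i < ⌈1 / μ⌉₊ ∧ (i : ℝ) * μ * Y < Z ∧ Z ≤ ((i : ℝ) + 1) * μ * Y := by
  have hμY : 0 < μ * Y := mul_pos hμ hY
  have h1 : 0 < Z / (μ * Y) := div_pos hZ0 hμY
  have h2 : 0 < ⌈Z / (μ * Y)⌉₊ := Nat.ceil_pos.2 h1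
  have h3 : Z / (μ * Y) ≤ 1 / μ := by
    rw [div_le_div_iff₀ hμY hμ]
    nlinarith
  have h4 : ⌈Z / (μ * Y)⌉₊ ≤ ⌈1 / μ⌉₊ := Nat.ceil_le_ceil h3
  obtain ⟨i, hi⟩ : ∃ i : ℕ, ⌈Z / (μ * Y)⌉₊ = i + 1 := ⟨⌈Z / (μ * Y)⌉₊ - 1, by omega⟩
  refine ⟨i, by omega, ?_, ?_⟩
  · have h5 : (i : ℝ) < Z / (μ * Y) := by
      have : i < ⌈Z / (μ * Y)⌉₊ := by omega
      exact Nat.lt_ceil.1 this
    have h6 := (lt_div_iff₀ hμY).1 h5
    linarith
  · have h5 : Z / (μ * Y) ≤ ((i + 1 : ℕ) : ℝ) := by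
      rw [← hi]
      exact Nat.le_ceil _
    have h6 := (div_le_iff₀ hμY).1 h5
    push_cast at h6
    linarith

theorem CV8 (hGE8 : GE8_stmt) : CV8_stmt := by
  classical
  intro κ hκ hκ1
  obtain ⟨a, ha⟩ : ∃ a : ℝ, a = √κ := ⟨_, rfl⟩
  have ha0 : 0 < a := by
    rw [ha]
    exact Real.sqrt_pos.2 hκ
  have ha1 : a ≤ 1 := by
    rw [ha]
    exact Real.sqrt_le_one.2 hκ1
  have ha2 : a ^ 2 = κ := by
    rw [ha]
    exact Real.sq_sqrt hκ.le
  have hC0 : 0 < 12 / a ^ 5 := by positivity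
  refine ⟨16 + 12 / a ^ 5, by linarith, ?_⟩
  intro N Y μ n k hN hY hμ hμ1 hn hk hNY
  obtain ⟨s, hs⟩ : ∃ s : ℝ, s = √Y := ⟨_, rfl⟩
  have hs0 : 0 < s := by
    rw [hs]
    exact Real.sqrt_pos.2 hY
  have hs2 : s ^ 2 = Y := by
    rw [hs]
    exact Real.sq_sqrt hY.le
  have hn0 : (0 : ℝ) < n := by exact_mod_cast hn
  have hk0 : (0 : ℝ) < k := by exact_mod_cast hk
  refine ⟨((Finset.univ : Finset (Bool × Bool)) ×ˢ (Finset.range ⌈1 / μ⌉₊ ×ˢ Finset.range ⌈1 / μ⌉₊)).image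
    (CV8_c Y μ n k), ?_, ?_⟩
  · have h1 : (⌈1 / μ⌉₊ : ℝ) ≤ 2 / μ := by
      have h2 := (Nat.ceil_lt_add_one (show 0 ≤ 1 / μ by positivity)).le
      have h3 : 1 ≤ 1 / μ := by
        rw [le_div_iff₀ hμ]
        linarith
      have h4 : 2 / μ = 1 / μ + 1 / μ := by ring
      rw [h4]
      linarith
    have h2 : ((((Finset.univ : Finset (Bool × Bool)) ×ˢ
        (Finset.range ⌈1 / μ⌉₊ ×ˢ Finset.range ⌈1 / μ⌉₊)).image (CV8_c Y μ n k)).card : ℝ) ≤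
        4 * (⌈1 / μ⌉₊ * ⌈1 / μ⌉₊ : ℝ) := by
      have h3 := Finset.card_image_le (s := (Finset.univ : Finset (Bool × Bool)) ×ˢ
        (Finset.range ⌈1 / μ⌉₊ ×ˢ Finset.range ⌈1 / μ⌉₊)) (f := CV8_c Y μ n k)
      rw [Finset.card_product, Finset.card_product, Finset.card_range] at h3
      have h4 : (Finset.univ : Finset (Bool × Bool)).card = 4 := rfl
      rw [h4] at h3
      exact_mod_cast h3
    refine h2.trans ?_
    have h3 : (⌈1 / μ⌉₊ * ⌈1 / μ⌉₊ : ℝ) ≤ (2 / μ) * (2 / μ) :=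
      mul_le_mul h1 h1 (Nat.cast_nonneg _) (by positivity)
    have h4 : 4 * ((2 / μ) * (2 / μ)) = 16 / μ ^ 2 := by
      field_simp
      norm_num
    have h5 : 16 / μ ^ 2 ≤ (16 + 12 / a ^ 5) / μ ^ 2 :=
      div_le_div_of_nonneg_right (by linarith) (by positivity)
    linarith
  · intro t ht htn
    have ht1 : t.1.1 = n := by rw [htn]
    have ht2 : t.1.2 = k := by rw [htn]
    have hΔ0 : 0 < -(dis t : ℝ) := lt_trans (by linarith) ht.d1
    have hκY : 0 < κ * Y := mul_pos hκ hY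
    have hZ0 : (0 : ℝ) < t.2.2.2 := hκY.trans_le ht.z1
    have hL0 : (0 : ℝ) < lam t := hκY.trans_le ht.l1
    obtain ⟨s₁, s₂, hs₁, hs₂, hm, hg⟩ := hGE8 t ht.tt (by exact_mod_cast hZ0) (by exact_mod_cast hL0)
      (by
        have : (dis t : ℝ) < 0 := by linarith
        exact_mod_cast this)
    rw [ht1, ht2] at hm hg
    obtain ⟨i, hiJ, hi1, hi2⟩ := CV8_idx hY hμ hZ0 ht.z2
    obtain ⟨j, hjJ, hj1, hj2⟩ := CV8_idx hY hμ hL0 ht.l2
    have hZa : a ^ 2 * s ^ 2 ≤ (t.2.2.2 : ℝ) := by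
      rw [ha2, hs2]
      exact ht.z1
    have hLa : a ^ 2 * s ^ 2 ≤ (lam t : ℝ) := by
      rw [ha2, hs2]
      exact ht.l1
    have hz2 : ((i : ℝ) + 1) * μ * Y - t.2.2.2 ≤ μ * s ^ 2 := by
      rw [hs2]
      linarith
    have hl2 : ((j : ℝ) + 1) * μ * Y - lam t ≤ μ * s ^ 2 := by
      rw [hs2]
      linarith
    have hNs : (n : ℝ) * k * N ≤ 36 * μ * s ^ 6 := by
      have : s ^ 6 = Y ^ 3 := by
        rw [← hs2]
        ring
      rw [this]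
      exact hNY
    obtain ⟨qa, qb⟩ := CV8_sqrt ha0 hs0 hZa hi2 hz2
    obtain ⟨ra, rb⟩ := CV8_sqrt ha0 hs0 hLa hj2 hl2
    have hq1 : |√(((i : ℝ) + 1) * μ * Y) - √(t.2.2.2 : ℝ)| ≤ μ * s / a ^ 3 := by
      rw [abs_of_nonneg qa]
      refine qb.trans (div_le_div_of_nonneg_left (by positivity) (by positivity) ?_)
      have : a ^ 3 ≤ a ^ 1 := pow_le_pow_of_le_one ha0.le ha1 (by norm_num)
      simpa using this
    have hr1 : |√(((j : ℝ) + 1) * μ * Y) - √(lam t : ℝ)| ≤ μ * s / a ^ 3 := by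
      rw [abs_of_nonneg ra]
      refine rb.trans (div_le_div_of_nonneg_left (by positivity) (by positivity) ?_)
      have : a ^ 3 ≤ a ^ 1 := pow_le_pow_of_le_one ha0.le ha1 (by norm_num)
      simpa using this
    have hq2 : |((i : ℝ) + 1) * μ * Y / √(((j : ℝ) + 1) * μ * Y) - t.2.2.2 / √(lam t : ℝ)| ≤
        μ * s / a ^ 3 := by
      refine CV8_quot ha0 ha1 hs0 hμ hZ0.le ?_ hi2 hz2 (CV8_lo ha0 hs0 hLa) (by linarith) rb
      rw [hs2]
      exact ht.z2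
    have hr2 : |((j : ℝ) + 1) * μ * Y / √(((i : ℝ) + 1) * μ * Y) - lam t / √(t.2.2.2 : ℝ)| ≤
        μ * s / a ^ 3 := by
      refine CV8_quot ha0 ha1 hs0 hμ hL0.le ?_ hj2 hl2 (CV8_lo ha0 hs0 hZa) (by linarith) qb
      rw [hs2]
      exact ht.l2
    have he1 := CV8_err (V := (lam t : ℝ)) ha0 hs0 hn0 hk0 hΔ0.le ht.d2 hNs hμ hZa hLa hLa
    have he2 := CV8_err (V := (t.2.2.2 : ℝ)) ha0 hs0 hn0 hk0 hΔ0.le ht.d2 hNs hμ hZa hLa hZa
    have hb3 : μ * s / a ^ 3 ≤ μ * s / a ^ 5 := by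
      refine div_le_div_of_nonneg_left (by positivity) (by positivity) ?_
      exact pow_le_pow_of_le_one ha0.le ha1 (by norm_num)
    have hfin : μ * s / a ^ 3 * ((n : ℝ) + k) + 9 * μ * s * ((n : ℝ) + k) / a ^ 5 ≤
        (16 + 12 / a ^ 5) * μ * (((n : ℝ) + k) * √Y) := by
      rw [← hs]
      have h1 : μ * s / a ^ 3 * ((n : ℝ) + k) ≤ μ * s / a ^ 5 * ((n : ℝ) + k) :=
        mul_le_mul_of_nonneg_right hb3 (by positivity)
      have h2 : (16 + 12 / a ^ 5) * μ * (((n : ℝ) + k) * s) - (μ * s / a ^ 5 * ((n : ℝ) + k) +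
          9 * μ * s * ((n : ℝ) + k) / a ^ 5) =
          16 * μ * (((n : ℝ) + k) * s) + 2 * (μ * (((n : ℝ) + k) * s) / a ^ 5) := by
        ring
      have h3 : 0 ≤ 16 * μ * (((n : ℝ) + k) * s) + 2 * (μ * (((n : ℝ) + k) * s) / a ^ 5) := by
        positivity
      linarith
    obtain ⟨b₁, hb₁⟩ : ∃ b : Bool, s₁ = if b then 1 else -1 := by
      rcases hs₁ with h | h
      · exact ⟨true, by simp [h]⟩
      · exact ⟨false, by simp [h]⟩
    obtain ⟨b₂, hb₂⟩ : ∃ b : Bool, s₂ = if b then 1 else -1 := by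
      rcases hs₂ with h | h
      · exact ⟨true, by simp [h]⟩
      · exact ⟨false, by simp [h]⟩
    have hs1a : |s₁| = 1 := by rcases hs₁ with h | h <;> simp [h]
    have hs2a : |s₂| = 1 := by rcases hs₂ with h | h <;> simp [h]
    refine ⟨CV8_c Y μ n k ((b₁, b₂), (i, j)), ?_, ?_, ?_, ?_, ?_⟩
    · exact Finset.mem_image_of_mem _ (Finset.mem_product.2 ⟨Finset.mem_univ _,
        Finset.mem_product.2 ⟨Finset.mem_range.2 hiJ, Finset.mem_range.2 hjJ⟩⟩)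
    · have e0 : (CV8_c Y μ n k ((b₁, b₂), (i, j))).1 =
          s₁ * (√(((i : ℝ) + 1) * μ * Y) * n) - s₂ * (((i : ℝ) + 1) * μ * Y / √(((j : ℝ) + 1) * μ * Y) * k) := by
        rw [hb₁, hb₂]
        rfl
      have e1 : (t.2.1 : ℝ) - (CV8_c Y μ n k ((b₁, b₂), (i, j))).1 =
          ((t.2.1 : ℝ) - (s₁ * (√(t.2.2.2 : ℝ) * n) - s₂ * (t.2.2.2 / √(lam t : ℝ) * k))) -
            s₁ * ((√(((i : ℝ) + 1) * μ * Y) - √(t.2.2.2 : ℝ)) * n) +
            s₂ * ((((i : ℝ) + 1) * μ * Y / √(((j : ℝ) + 1) * μ * Y) - t.2.2.2 / √(lam t : ℝ)) * k) := by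
        rw [e0]
        ring
      rw [e1]
      refine (abs_add_le _ _).trans ((add_le_add (abs_sub _ _) le_rfl).trans ?_)
      rw [abs_mul s₁, abs_mul s₂, hs1a, hs2a, one_mul, one_mul, abs_mul, abs_mul, abs_of_pos hn0, abs_of_pos hk0]
      have f1 := mul_le_mul_of_nonneg_right hq1 hn0.le
      have f2 := mul_le_mul_of_nonneg_right hq2 hk0.le
      have f3 := hm.trans he1
      linarith
    · have e0 : (CV8_c Y μ n k ((b₁, b₂), (i, j))).2.1 =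
          s₁ * (((j : ℝ) + 1) * μ * Y / √(((i : ℝ) + 1) * μ * Y) * n) + s₂ * (√(((j : ℝ) + 1) * μ * Y) * k) := by
        rw [hb₁, hb₂]
        rfl
      have e1 : (t.2.2.1 : ℝ) - (CV8_c Y μ n k ((b₁, b₂), (i, j))).2.1 =
          ((t.2.2.1 : ℝ) - (s₁ * (lam t / √(t.2.2.2 : ℝ) * n) + s₂ * (√(lam t : ℝ) * k))) -
            s₁ * ((((j : ℝ) + 1) * μ * Y / √(((i : ℝ) + 1) * μ * Y) - lam t / √(t.2.2.2 : ℝ)) * n) -
            s₂ * ((√(((j : ℝ) + 1) * μ * Y) - √(lam t : ℝ)) * k) := by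
        rw [e0]
        ring
      rw [e1]
      refine (abs_sub _ _).trans ((add_le_add (abs_sub _ _) le_rfl).trans ?_)
      rw [abs_mul s₁, abs_mul s₂, hs1a, hs2a, one_mul, one_mul, abs_mul, abs_mul, abs_of_pos hn0, abs_of_pos hk0]
      have f1 := mul_le_mul_of_nonneg_right hr2 hn0.le
      have f2 := mul_le_mul_of_nonneg_right hr1 hk0.le
      have f3 := hg.trans he2
      linarith
    · exact hi1
    · change (t.2.2.2 : ℝ) ≤ (i : ℝ) * μ * Y + μ * Y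
      linarith

end Pool.Agent.T8
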