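import Pool.Agent.helper88.T8.Spec
import Pool.Agent.helper92.T5.SZ
import Pool.Agent.helper11.T5.TR

/-!
# Row WT8 of project T8 (MP_16912e_nt): the trivial bound for the tuples with `k ≤ n`
-/

set_option autoImplicit false

namespace Pool.Agent.T8

open Finset NumberField Pool.Agent.helper3.FT Pool.Agent.helper47.RA Pool.Agent.T5 Pool.Agent.T6 Pool.Agent.T7
open scoped nonZeroDivisors

theorem WT8_clog (n : ℕ) (hn : 1 ≤ n) : n ≤ 2 ^ Nat.clog 2 n ∧ 2 ^ Nat.clog 2 n < 2 * n := by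
  refine ⟨Nat.le_pow_clog (by norm_num) n, ?_⟩
  rcases hn.eq_or_lt with h | h
  · subst h
    simp
  · have h1 := Nat.pow_pred_clog_lt_self (b := 2) (by norm_num) h
    have h2 : 0 < Nat.clog 2 n := Nat.clog_pos (by norm_num) h
    have h3 : 2 ^ Nat.clog 2 n = 2 * 2 ^ (Nat.clog 2 n).pred := by
      rw [← pow_succ', ← Nat.succ_eq_add_one, Nat.succ_pred_eq_of_pos h2]
    omega

theorem WT8_num {c N Y d er es n1 k1 L : ℝ} (hN : 0 < N) (hY : 0 < Y) (hd : 0 < d) (her : 0 < er)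
    (hes : 0 < es) (hn1 : 0 < n1) (hk1 : 0 < k1) (hL1 : 1 ≤ L)
    (hL : L * (er * es) ≤ c * (n1 * √Y)) (hk : k1 ≤ 2 * n1) (hn : n1 * d * √N ≤ 6 * (Y * √Y)) :
    n1 * k1 * (L ^ 2 * (Y / (n1 ^ 3 * k1 * es * er ^ 2) + 1) + L) ≤
      5184 * c ^ 2 * (Y ^ 2 / (er ^ 4 * es ^ 3) + Y ^ 7 / (N ^ 2 * d ^ 4) / (er ^ 2 * es ^ 2)) := by
  have hq : √Y ^ 2 = Y := Real.sq_sqrt hY.le
  have hp : √N ^ 2 = N := Real.sq_sqrt hN.le
  have hL0 : 0 < L := by linarith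
  have h1 : L ^ 2 * (er * es) ^ 2 ≤ c ^ 2 * (n1 ^ 2 * Y) := by
    have h0 : 0 ≤ L * (er * es) := by positivity
    calc L ^ 2 * (er * es) ^ 2 = (L * (er * es)) * (L * (er * es)) := by ring
      _ ≤ (c * (n1 * √Y)) * (c * (n1 * √Y)) := mul_self_le_mul_self h0 hL
      _ = c ^ 2 * (n1 ^ 2 * √Y ^ 2) := by ring
      _ = c ^ 2 * (n1 ^ 2 * Y) := by rw [hq]
  have h2 : n1 ^ 4 * (N ^ 2 * d ^ 4) ≤ 1296 * Y ^ 6 := by
    have h3 : (n1 * d * √N) ^ 4 ≤ (6 * (Y * √Y)) ^ 4 := pow_le_pow_left₀ (by positivity) hn 4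
    calc n1 ^ 4 * (N ^ 2 * d ^ 4) = n1 ^ 4 * ((√N ^ 2) ^ 2 * d ^ 4) := by rw [hp]
      _ = (n1 * d * √N) ^ 4 := by ring
      _ ≤ (6 * (Y * √Y)) ^ 4 := h3
      _ = 1296 * Y ^ 4 * (√Y ^ 2) ^ 2 := by ring
      _ = 1296 * Y ^ 6 := by rw [hq]; ring
  have p1 : n1 * k1 * (L ^ 2 * (Y / (n1 ^ 3 * k1 * es * er ^ 2))) ≤
      c ^ 2 * (Y ^ 2 / (er ^ 4 * es ^ 3)) := by
    have e1 : n1 * k1 * (L ^ 2 * (Y / (n1 ^ 3 * k1 * es * er ^ 2))) =
        (L ^ 2 * (er * es) ^ 2) * (Y / (n1 ^ 2 * er ^ 4 * es ^ 3)) := by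
      field_simp
    rw [e1]
    have h3 := mul_le_mul_of_nonneg_right h1 (show 0 ≤ Y / (n1 ^ 2 * er ^ 4 * es ^ 3) by positivity)
    refine h3.trans (le_of_eq ?_)
    field_simp
  have p2 : n1 * k1 * (L ^ 2 + L) ≤
      5184 * c ^ 2 * (Y ^ 7 / (N ^ 2 * d ^ 4) / (er ^ 2 * es ^ 2)) := by
    have h3 : n1 * k1 * (L ^ 2 + L) ≤ 4 * (n1 ^ 2 * L ^ 2) := by
      have h4 : L ≤ L ^ 2 := by nlinarith
      have h5 : n1 * k1 ≤ 2 * n1 ^ 2 := by nlinarith
      calc n1 * k1 * (L ^ 2 + L) ≤ (2 * n1 ^ 2) * (L ^ 2 + L ^ 2) :=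
            mul_le_mul h5 (by linarith) (by positivity) (by positivity)
        _ = 4 * (n1 ^ 2 * L ^ 2) := by ring
    have h5 : n1 ^ 2 * L ^ 2 ≤ c ^ 2 * (n1 ^ 4 * Y) / (er ^ 2 * es ^ 2) := by
      rw [le_div_iff₀ (by positivity)]
      have h6 := mul_le_mul_of_nonneg_left h1 (show 0 ≤ n1 ^ 2 by positivity)
      calc n1 ^ 2 * L ^ 2 * (er ^ 2 * es ^ 2) = n1 ^ 2 * (L ^ 2 * (er * es) ^ 2) := by ring
        _ ≤ n1 ^ 2 * (c ^ 2 * (n1 ^ 2 * Y)) := h6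
        _ = c ^ 2 * (n1 ^ 4 * Y) := by ring
    have h6 : n1 ^ 4 ≤ 1296 * Y ^ 6 / (N ^ 2 * d ^ 4) := by
      rw [le_div_iff₀ (by positivity)]
      exact h2
    have h7 : c ^ 2 * (n1 ^ 4 * Y) / (er ^ 2 * es ^ 2) ≤
        c ^ 2 * (1296 * Y ^ 6 / (N ^ 2 * d ^ 4) * Y) / (er ^ 2 * es ^ 2) := by
      refine div_le_div_of_nonneg_right ?_ (by positivity)
      exact mul_le_mul_of_nonneg_left (mul_le_mul_of_nonneg_right h6 hY.le) (by positivity)
    have h8 : 4 * (c ^ 2 * (1296 * Y ^ 6 / (N ^ 2 * d ^ 4) * Y) / (er ^ 2 * es ^ 2)) =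
        5184 * c ^ 2 * (Y ^ 7 / (N ^ 2 * d ^ 4) / (er ^ 2 * es ^ 2)) := by
      field_simp
      ring
    linarith
  have e2 : n1 * k1 * (L ^ 2 * (Y / (n1 ^ 3 * k1 * es * er ^ 2) + 1) + L) =
      n1 * k1 * (L ^ 2 * (Y / (n1 ^ 3 * k1 * es * er ^ 2))) + n1 * k1 * (L ^ 2 + L) := by ring
  have h9 : 0 ≤ c ^ 2 * (Y ^ 2 / (er ^ 4 * es ^ 3)) := by positivity
  rw [e2]
  linarith

theorem WT8 (hWB8 : WB8_stmt) : WT8_stmt := by
  classical
  obtain ⟨C4, hC4, hW⟩ := hWB8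
  intro κ A hκ hκ1 hA
  have hSZ : SZ_stmt := SZ TR
  have hκ0 : 0 < √κ := Real.sqrt_pos.2 hκ
  have hκle : √κ ≤ 1 := Real.sqrt_le_one.2 hκ1
  have hA0 : 1 ≤ √A := Real.one_le_sqrt.2 hA
  obtain ⟨c, hc⟩ : ∃ c : ℝ, c = 2 / √κ + 24 * √A := ⟨_, rfl⟩
  have hc1 : 1 ≤ c := by
    have h1 : 0 ≤ 2 / √κ := by positivity
    linarith
  have hM1 : 1 ≤ 9 * (5184 * c ^ 2) := by nlinarith
  refine ⟨C4 * (9 * (5184 * c ^ 2)), 36 * A, ?_, by linarith, ?_⟩
  · nlinarith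
  intro N Y hN hNY hYA d er es y hM s S hS F hF
  have hN36 : 36 ≤ N := by linarith
  have hN0 : 0 < N := by linarith
  have hY0 : 0 < Y := lt_of_lt_of_le (Real.rpow_pos_of_pos hN0 _) hNY
  have hs0 : 0 ≤ s := le_trans (Nat.cast_nonneg _) (hS (0, 0))
  have hlog : 1 ≤ Real.log N := by
    rw [Real.le_log_iff_exp_le hN0]
    linarith [Real.exp_one_lt_d9]
  have hd1 : (1 : ℝ) ≤ d := by exact_mod_cast hM.d1
  have her1 : (1 : ℝ) ≤ er := by exact_mod_cast hM.r1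
  have hes1 : (1 : ℝ) ≤ es := by exact_mod_cast hM.s1
  have hEd : (er : ℝ) * es ≤ d := by exact_mod_cast hM.rs
  have hd0 : (0 : ℝ) < d := by linarith
  have her0 : (0 : ℝ) < er := by linarith
  have hes0 : (0 : ℝ) < es := by linarith
  have hy0 : (0 : ℝ) < y := by
    have : 0 < y := Nat.pos_of_ne_zero hM.sq.ne_zero
    exact_mod_cast this
  have hsN : 0 < √N := Real.sqrt_pos.2 hN0
  have hsY : 0 < √Y := Real.sqrt_pos.2 hY0
  have hpN : √N ^ 2 = N := Real.sq_sqrt hN0.le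
  have hpY : √Y ^ 2 = Y := Real.sq_sqrt hY0.le
  have hYs : Y ≤ √A * √N := by
    rw [← Real.sqrt_mul (by linarith)]
    exact Real.le_sqrt_of_sq_le hYA
  obtain ⟨W0, hW0⟩ : ∃ W0 : ℝ, W0 = Y ^ 2 / ((er : ℝ) ^ 4 * (es : ℝ) ^ 3) +
    Y ^ 7 / (N ^ 2 * (d : ℝ) ^ 4) / ((er : ℝ) ^ 2 * (es : ℝ) ^ 2) := ⟨_, rfl⟩
  have hW0p : 0 ≤ W0 := by
    rw [hW0]
    positivity
  -- sizes
  have hbig : 6 * (Y * √Y) ≤ N * √N := by
    have h1 : (Y ^ 2) ^ 3 ≤ (A * N) ^ 3 := pow_le_pow_left₀ (by positivity) hYA 3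
    have h2 : (36 * A) ^ 3 ≤ N ^ 3 := pow_le_pow_left₀ (by positivity) hN 3
    have h3 : (36 * Y ^ 3) ^ 2 ≤ (N ^ 3) ^ 2 := by
      have h4 : (36 * A) ^ 3 * N ^ 3 ≤ N ^ 3 * N ^ 3 := mul_le_mul_of_nonneg_right h2 (by positivity)
      have h5 : 0 ≤ A ^ 3 * N ^ 3 := by positivity
      nlinarith
    have h4 : 36 * Y ^ 3 ≤ N ^ 3 := (pow_le_pow_iff_left₀ (by positivity) (by positivity) two_ne_zero).1 h3
    have h5 : (6 * (Y * √Y)) ^ 2 ≤ (N * √N) ^ 2 := by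
      have e1 : (6 * (Y * √Y)) ^ 2 = 36 * Y ^ 2 * √Y ^ 2 := by ring
      have e2 : (N * √N) ^ 2 = N ^ 2 * √N ^ 2 := by ring
      rw [e1, e2, hpY, hpN]
      linarith
    exact (pow_le_pow_iff_left₀ (by positivity) (by positivity) two_ne_zero).1 h5
  have hsize : ∀ t ∈ F, (t.1.1 : ℝ) * d * √N ≤ 3 * (Y * √Y) ∧ (t.1.2 : ℝ) * d * √N ≤ 3 * (Y * √Y) := by
    intro t ht
    obtain ⟨hce, -⟩ := hF t ht
    have hκY : 0 < κ * Y := mul_pos hκ hY0
    have hZ0 : (0 : ℝ) < t.2.2.2 := hκY.trans_le hce.z1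
    have hL0 : (0 : ℝ) < lam t := hκY.trans_le hce.l1
    have hΔ : 0 < N * (d : ℝ) ^ 2 / 2 := by positivity
    have hΔ1 := hce.d1
    obtain ⟨g1, g2, -, -⟩ := hSZ t hce.tt (by exact_mod_cast hZ0) (by exact_mod_cast hL0)
      (by
        have : (dis t : ℝ) < 0 := by linarith
        exact_mod_cast this)
    have h1 : 2 / 3 * (d * √N) ≤ √(-(dis t : ℝ)) := by
      apply Real.le_sqrt_of_sq_le
      have e1 : (2 / 3 * ((d : ℝ) * √N)) ^ 2 = 4 / 9 * (d : ℝ) ^ 2 * √N ^ 2 := by ring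
      rw [e1, hpN]
      nlinarith
    have h2 : √(lam t : ℝ) ≤ √Y := Real.sqrt_le_sqrt hce.l2
    have h3 : √(t.2.2.2 : ℝ) ≤ √Y := Real.sqrt_le_sqrt hce.z2
    have hn0 : (0 : ℝ) ≤ t.1.1 := Nat.cast_nonneg _
    have hk0 : (0 : ℝ) ≤ t.1.2 := Nat.cast_nonneg _
    have h4 : 2 * (t.2.2.2 : ℝ) * √(lam t : ℝ) ≤ 2 * (Y * √Y) := by
      have := mul_le_mul hce.z2 h2 (Real.sqrt_nonneg _) hY0.le
      linarith
    have h5 : 2 * √(t.2.2.2 : ℝ) * (lam t : ℝ) ≤ 2 * (Y * √Y) := by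
      have := mul_le_mul h3 hce.l2 hL0.le hsY.le
      linarith
    have h6 := mul_le_mul_of_nonneg_left h1 hn0
    have h7 := mul_le_mul_of_nonneg_left h1 hk0
    constructor <;> linarith
  -- one block
  have block : ∀ i j : ℕ, ((F.filter fun t => (Nat.clog 2 t.1.1, Nat.clog 2 t.1.2) = (i, j)).card : ℝ) ≤
      C4 ^ (y.primeFactors.card + 1) * (s / y) * (5184 * c ^ 2 * W0) := by
    intro i j
    rcases (F.filter fun t => (Nat.clog 2 t.1.1, Nat.clog 2 t.1.2) = (i, j)).eq_empty_or_nonempty with h | ⟨t0, h⟩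
    · rw [h, Finset.card_empty, Nat.cast_zero]
      positivity
    · rw [Finset.mem_filter] at h
      obtain ⟨ht0, hij⟩ := h
      have hi : Nat.clog 2 t0.1.1 = i := congrArg Prod.fst hij
      have hj : Nat.clog 2 t0.1.2 = j := congrArg Prod.snd hij
      have hce0 := (hF t0 ht0).1
      have hkn0 : t0.1.2 ≤ t0.1.1 := (hF t0 ht0).2.1
      have a1 := WT8_clog t0.1.1 hce0.tt.n1
      have a2 := WT8_clog t0.1.2 hce0.tt.k1
      rw [hi] at a1
      rw [hj] at a2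
      have hN1 : 1 ≤ 2 ^ i := Nat.one_le_two_pow
      have hK1 : 1 ≤ 2 ^ j := Nat.one_le_two_pow
      have hKN : (((2 ^ j : ℕ)) : ℝ) ≤ 2 * ((2 ^ i : ℕ) : ℝ) := by
        have : 2 ^ j ≤ 2 * 2 ^ i := by omega
        exact_mod_cast this
      have hn1 : (1 : ℝ) ≤ ((2 ^ i : ℕ) : ℝ) := by exact_mod_cast hN1
      have hk1 : (1 : ℝ) ≤ ((2 ^ j : ℕ) : ℝ) := by exact_mod_cast hK1
      have hN1d : ((2 ^ i : ℕ) : ℝ) * d * √N ≤ 6 * (Y * √Y) := by
        have h1 : ((2 ^ i : ℕ) : ℝ) ≤ 2 * (t0.1.1 : ℝ) := by exact_mod_cast a1.2.le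
        have h2 := (hsize t0 ht0).1
        have h3 := mul_le_mul_of_nonneg_right h1 (show 0 ≤ (d : ℝ) * √N by positivity)
        linarith
      obtain ⟨L, hL⟩ : ∃ L : ℕ, L = ⌈2 * ((2 ^ i : ℕ) : ℝ) * √Y / (√κ * (er * es))⌉₊ + 3 := ⟨_, rfl⟩
      have hE0 : 0 < (er : ℝ) * es := by positivity
      have hL1 : 1 ≤ L := by omega
      have hLlow : 2 / √κ * (((2 ^ i : ℕ) : ℝ) * √Y) + 3 * (er * es) ≤ er * es * (L : ℝ) := by
        have h1 := Nat.le_ceil (2 * ((2 ^ i : ℕ) : ℝ) * √Y / (√κ * (er * es)))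
        rw [hL]
        push_cast at h1 ⊢
        have h2 := mul_le_mul_of_nonneg_left h1 hE0.le
        have h3 : (er : ℝ) * es * (2 * 2 ^ i * √Y / (√κ * (er * es))) = 2 / √κ * (2 ^ i * √Y) := by
          field_simp
        rw [h3] at h2
        linarith
      have hLup : (L : ℝ) * (er * es) ≤ c * (((2 ^ i : ℕ) : ℝ) * √Y) := by
        have h1 := (Nat.ceil_lt_add_one (show 0 ≤ 2 * ((2 ^ i : ℕ) : ℝ) * √Y / (√κ * (er * es)) by positivity)).le
        have h2 : (L : ℝ) ≤ 2 * ((2 ^ i : ℕ) : ℝ) * √Y / (√κ * (er * es)) + 4 := by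
          rw [hL]
          push_cast at h1 ⊢
          linarith
        have h3 := mul_le_mul_of_nonneg_right h2 hE0.le
        have h4 : (2 * ((2 ^ i : ℕ) : ℝ) * √Y / (√κ * (er * es)) + 4) * (er * es) =
            2 / √κ * (((2 ^ i : ℕ) : ℝ) * √Y) + 4 * (er * es) := by
          field_simp
        have h5 : (d : ℝ) ≤ 6 * √A * (((2 ^ i : ℕ) : ℝ) * √Y) := by
          have h6 : (((2 ^ i : ℕ) : ℝ) * d) * √N ≤ (6 * √A * √Y) * √N := by
            have h7 := mul_le_mul_of_nonneg_right hYs hsY.le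
            linarith
          have h7 := le_of_mul_le_mul_right h6 hsN
          have h8 : (d : ℝ) ≤ ((2 ^ i : ℕ) : ℝ) * d := le_mul_of_one_le_left hd0.le hn1
          have h9 : 6 * √A * √Y ≤ 6 * √A * (((2 ^ i : ℕ) : ℝ) * √Y) :=
            mul_le_mul_of_nonneg_left (le_mul_of_one_le_left hsY.le hn1) (by positivity)
          linarith
        have h6 : c * (((2 ^ i : ℕ) : ℝ) * √Y) = 2 / √κ * (((2 ^ i : ℕ) : ℝ) * √Y) +
            4 * (6 * √A * (((2 ^ i : ℕ) : ℝ) * √Y)) := by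
          rw [hc]
          ring
        rw [h6]
        linarith
      have hblk := hW (2 ^ i) (2 ^ j) L 1 er es y Y 0 s 1 hN1 hK1 hL1 le_rfl hM.r1 hM.s1 hM.co hM.sq hM.ys
        hY0 le_rfl (Or.inl rfl) S hS (fun _ => {(0, 0, 0)}) (fun _ => by simp)
        (F.filter fun t => (Nat.clog 2 t.1.1, Nat.clog 2 t.1.2) = (i, j)) (by
          intro t ht
          rw [Finset.mem_filter] at ht
          obtain ⟨ht, hij⟩ := ht
          have hi' : Nat.clog 2 t.1.1 = i := congrArg Prod.fst hij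
          have hj' : Nat.clog 2 t.1.2 = j := congrArg Prod.snd hij
          obtain ⟨hce, hkn, hyd, hcop, hx⟩ := hF t ht
          have b1 := WT8_clog t.1.1 hce.tt.n1
          have b2 := WT8_clog t.1.2 hce.tt.k1
          rw [hi'] at b1
          rw [hj'] at b2
          have hκY : 0 < κ * Y := mul_pos hκ hY0
          have hZ0 : (0 : ℝ) < t.2.2.2 := hκY.trans_le hce.z1
          have hL0 : (0 : ℝ) < lam t := hκY.trans_le hce.l1
          have hΔ : 0 < N * (d : ℝ) ^ 2 / 2 := by positivity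
          have hΔ1 := hce.d1
          obtain ⟨-, -, g3, g4⟩ := hSZ t hce.tt (by exact_mod_cast hZ0) (by exact_mod_cast hL0)
            (by
              have : (dis t : ℝ) < 0 := by linarith
              exact_mod_cast this)
          have hnle : (t.1.1 : ℝ) ≤ ((2 ^ i : ℕ) : ℝ) := by exact_mod_cast b1.1
          have hkle : (t.1.2 : ℝ) ≤ ((2 ^ i : ℕ) : ℝ) := by
            have : t.1.2 ≤ 2 ^ i := le_trans hkn b1.1
            exact_mod_cast this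
          have hn0 : (0 : ℝ) ≤ t.1.1 := Nat.cast_nonneg _
          have hk0 : (0 : ℝ) ≤ t.1.2 := Nat.cast_nonneg _
          have hsκ : √κ * √Y = √(κ * Y) := (Real.sqrt_mul hκ.le Y).symm
          have q1 : √(t.2.2.2 : ℝ) ≤ √Y / √κ := by
            refine (Real.sqrt_le_sqrt hce.z2).trans ?_
            rw [le_div_iff₀ hκ0]
            nlinarith
          have q2 : √(lam t : ℝ) ≤ √Y / √κ := by
            refine (Real.sqrt_le_sqrt hce.l2).trans ?_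
            rw [le_div_iff₀ hκ0]
            nlinarith
          have q3 : (t.2.2.2 : ℝ) / √(lam t : ℝ) ≤ √Y / √κ := by
            have h1 : √κ * √Y ≤ √(lam t : ℝ) := by
              rw [hsκ]
              exact Real.sqrt_le_sqrt hce.l1
            have h2 : (t.2.2.2 : ℝ) / √(lam t : ℝ) ≤ Y / (√κ * √Y) :=
              div_le_div₀ hY0.le hce.z2 (by positivity) h1
            refine h2.trans (le_of_eq ?_)
            rw [div_eq_div_iff (by positivity) (by positivity)]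
            linear_combination (-√κ) * hpY
          have q4 : (lam t : ℝ) / √(t.2.2.2 : ℝ) ≤ √Y / √κ := by
            have h1 : √κ * √Y ≤ √(t.2.2.2 : ℝ) := by
              rw [hsκ]
              exact Real.sqrt_le_sqrt hce.z1
            have h2 : (lam t : ℝ) / √(t.2.2.2 : ℝ) ≤ Y / (√κ * √Y) :=
              div_le_div₀ hY0.le hce.l2 (by positivity) h1
            refine h2.trans (le_of_eq ?_)
            rw [div_eq_div_iff (by positivity) (by positivity)]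
            linear_combination (-√κ) * hpY
          have hq0 : 0 ≤ √Y / √κ := by positivity
          have hmm : ∀ u v : ℝ, u ≤ √Y / √κ → v ≤ √Y / √κ →
              u * t.1.1 + v * t.1.2 ≤ 2 / √κ * (((2 ^ i : ℕ) : ℝ) * √Y) := by
            intro u v hu hv
            have h1 := mul_le_mul hu hnle hn0 hq0
            have h2 := mul_le_mul hv hkle hk0 hq0
            have h3 : 2 / √κ * (((2 ^ i : ℕ) : ℝ) * √Y) = √Y / √κ * ((2 ^ i : ℕ) : ℝ) +
                √Y / √κ * ((2 ^ i : ℕ) : ℝ) := by ring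
            rw [h3]
            linarith
          refine ⟨hce.tt, ?_, hcop, hx, (0, 0, 0), Finset.mem_singleton_self _, ?_, ?_, ?_, ?_⟩
          · unfold pairs
            rw [Finset.mem_filter, Finset.mem_product, Finset.mem_Icc, Finset.mem_Icc]
            exact ⟨⟨⟨hce.tt.n1, b1.1⟩, ⟨hce.tt.k1, b2.1⟩⟩, b1.2, b2.2, hce.tt.co, hyd⟩
          · have h1 := hmm _ _ q1 q3
            rw [sub_zero]
            linarith
          · have h1 := hmm _ _ q4 q2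
            rw [sub_zero]
            linarith
          · exact hZ0
          · rw [zero_add]
            exact hce.z2)
      refine hblk.trans ?_
      have hz : (0 : ℝ) ^ (3 / 2 : ℝ) = 0 := Real.zero_rpow (by norm_num)
      have hnum := WT8_num (c := c) hN0 hY0 hd0 her0 hes0 (lt_of_lt_of_le one_pos hn1)
        (lt_of_lt_of_le one_pos hk1) (show (1 : ℝ) ≤ L by exact_mod_cast hL1) hLup hKN hN1d
      rw [← hW0] at hnum
      have e1 : C4 ^ (y.primeFactors.card + 1) * s * 1 * (((2 ^ i : ℕ) : ℝ) * ((2 ^ j : ℕ) : ℝ) / y) *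
          ((L : ℝ) ^ 2 * (Y / (((2 ^ i : ℕ) : ℝ) ^ 3 * ((2 ^ j : ℕ) : ℝ) * es * (er : ℝ) ^ 2) + 1 / ((1 : ℕ) : ℝ)) +
            L * (1 + (0 : ℝ) ^ (3 / 2 : ℝ) * ((1 : ℕ) : ℝ) ^ (-(3 / 4) : ℝ) *
              (1 + ((1 : ℕ) : ℝ) * y / (((2 ^ i : ℕ) : ℝ) * ((2 ^ j : ℕ) : ℝ))))) =
          C4 ^ (y.primeFactors.card + 1) * (s / y) * (((2 ^ i : ℕ) : ℝ) * ((2 ^ j : ℕ) : ℝ) *
            ((L : ℝ) ^ 2 * (Y / (((2 ^ i : ℕ) : ℝ) ^ 3 * ((2 ^ j : ℕ) : ℝ) * es * (er : ℝ) ^ 2) + 1) + L)) := by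
        rw [hz, Nat.cast_one]
        ring
      rw [e1]
      exact mul_le_mul_of_nonneg_left hnum (by positivity)
  -- all blocks
  obtain ⟨I, hI⟩ : ∃ I : ℕ, I = ⌊2 * Real.log N⌋₊ + 1 := ⟨_, rfl⟩
  have hIle : (I : ℝ) ≤ 3 * Real.log N := by
    have h1 := Nat.floor_le (show 0 ≤ 2 * Real.log N by linarith)
    rw [hI]
    push_cast
    linarith
  have hidx : ∀ m : ℕ, 1 ≤ m → (m : ℝ) * d * √N ≤ 3 * (Y * √Y) → Nat.clog 2 m < I := by
    intro m hm hmd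
    have h1 := (WT8_clog m hm).2
    have h2 : ((2 : ℝ) ^ Nat.clog 2 m) * √N ≤ N * √N := by
      have h3 : ((2 ^ Nat.clog 2 m : ℕ) : ℝ) ≤ 2 * (m : ℝ) := by exact_mod_cast h1.le
      push_cast at h3
      have h4 : ((2 : ℝ) ^ Nat.clog 2 m) * √N ≤ (2 * (m : ℝ)) * √N := mul_le_mul_of_nonneg_right h3 hsN.le
      have h5 : (2 * (m : ℝ)) * √N ≤ 2 * ((m : ℝ) * d * √N) := by
        have h6 : (m : ℝ) * √N ≤ (m : ℝ) * √N * d := le_mul_of_one_le_right (by positivity) hd1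
        linarith
      linarith
    have h3 := le_of_mul_le_mul_right h2 hsN
    have h4 : (Nat.clog 2 m : ℝ) * Real.log 2 ≤ Real.log N := by
      rw [← Real.log_pow]
      exact Real.log_le_log (by positivity) h3
    have h5 : (1 : ℝ) / 2 ≤ Real.log 2 := by linarith [Real.log_two_gt_d9]
    have h6 : (Nat.clog 2 m : ℝ) ≤ 2 * Real.log N := by
      have h7 : (Nat.clog 2 m : ℝ) * (1 / 2) ≤ (Nat.clog 2 m : ℝ) * Real.log 2 :=
        mul_le_mul_of_nonneg_left h5 (Nat.cast_nonneg _)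
      linarith
    have h7 := Nat.le_floor h6
    omega
  have hcard : F.card = ∑ b ∈ Finset.range I ×ˢ Finset.range I,
      (F.filter fun t => (Nat.clog 2 t.1.1, Nat.clog 2 t.1.2) = b).card := by
    refine Finset.card_eq_sum_card_fiberwise fun t ht => ?_
    have ht' : t ∈ F := ht
    have hce := (hF t ht').1
    exact Finset.mem_coe.2 (Finset.mem_product.2 ⟨Finset.mem_range.2 (hidx _ hce.tt.n1 (hsize t ht').1),
      Finset.mem_range.2 (hidx _ hce.tt.k1 (hsize t ht').2)⟩)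
  have hsum : (F.card : ℝ) ≤ (I : ℝ) * I *
      (C4 ^ (y.primeFactors.card + 1) * (s / y) * (5184 * c ^ 2 * W0)) := by
    rw [hcard, Nat.cast_sum]
    refine (Finset.sum_le_sum fun b _ => block b.1 b.2).trans ?_
    rw [Finset.sum_const, Finset.card_product, Finset.card_range, nsmul_eq_mul, Nat.cast_mul]
  have hI0 : (0 : ℝ) ≤ I := Nat.cast_nonneg _
  have hII : (I : ℝ) * I ≤ 9 * Real.log N ^ 2 := by
    have := mul_le_mul hIle hIle hI0 (by linarith)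
    linarith [this]
  have hB0 : 0 ≤ C4 ^ (y.primeFactors.card + 1) * (s / y) * (5184 * c ^ 2 * W0) := by positivity
  have hfin := hsum.trans (mul_le_mul_of_nonneg_right hII hB0)
  have hpow : C4 ^ (y.primeFactors.card + 1) * (9 * (5184 * c ^ 2)) ≤
      (C4 * (9 * (5184 * c ^ 2))) ^ (y.primeFactors.card + 1) := by
    rw [mul_pow]
    refine mul_le_mul_of_nonneg_left ?_ (by positivity)
    exact le_self_pow₀ hM1 (Nat.succ_ne_zero _)
  have hP0 : 0 ≤ s / y * (Real.log N ^ 2 * W0) := by positivity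
  have h10 := mul_le_mul_of_nonneg_right hpow hP0
  rw [← hW0]
  calc (F.card : ℝ) ≤ 9 * Real.log N ^ 2 * (C4 ^ (y.primeFactors.card + 1) * (s / y) * (5184 * c ^ 2 * W0)) := hfin
    _ = C4 ^ (y.primeFactors.card + 1) * (9 * (5184 * c ^ 2)) * (s / y * (Real.log N ^ 2 * W0)) := by ring
    _ ≤ (C4 * (9 * (5184 * c ^ 2))) ^ (y.primeFactors.card + 1) * (s / y * (Real.log N ^ 2 * W0)) := h10
    _ = (C4 * (9 * (5184 * c ^ 2))) ^ (y.primeFactors.card + 1) * (s / y) * (Real.log N ^ 2 * W0) := by ring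

end Pool.Agent.T8
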